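import Pool.Agent.H89.ES.ENB
import Pool.Agent.H28.NW.Targets

/-!
# Row (ENB) on logarithmic windows: the entropy of the words of the blocks
-/

set_option autoImplicit false

open Finset Pool.Agent.H18.MR Pool.Agent.H93.DE Pool.Agent.H6.N4D Pool.Agent.H93 Pool.Agent.H93.ES
open Pool.Agent.H28.NW Pool.Agent.H89.ES

namespace Pool.Agent.H12.NW.ENB

/-- the entropy of the words of any block is bounded -/
theorem first_block (δ D : ℝ) (R s N : ℕ) [NeZero N] (x : ZMod N → Bool)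
    (hW : ∀ (x : ZMod N → Bool) (b : ZMod N → ℕ → ℂ) (β : ZMod N → ℕ → ℝ) (E : ZMod N → ℝ),
      (∀ n r, ‖b n r‖ ≤ 1) →
      (∀ n, (∑ t ∈ range (2 ^ s), ‖(ltr x n t : ℂ) - ∑ r ∈ range R, b n r * ee (β n r * t)‖ ^ 2) /
        2 ^ s ≤ E n) →
      ent (unif N) (fun n => wd x (2 ^ s) n) / 2 ^ s ≤ D + avZ E / δ) :
    ent (unif N) (fun n => wd x (2 ^ s) n) / 2 ^ s ≤ D + 1 / δ := by
  have hN : 0 < N := NeZero.pos N
  have hNR : (0 : ℝ) < N := by exact_mod_cast hN
  have h := hW x (fun _ _ => 0) (fun _ _ => 0) (fun _ => 1) (fun n r => by simp) (fun n => by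
    have h2 : ∑ t ∈ range (2 ^ s), ‖(ltr x n t : ℂ) -
        ∑ r ∈ range R, (0 : ℂ) * ee ((0 : ℝ) * t)‖ ^ 2 = ∑ t ∈ range (2 ^ s), (1 : ℝ) := by
      apply Finset.sum_congr rfl
      intro t _
      simp only [zero_mul, Finset.sum_const_zero, sub_zero]
      rw [Complex.norm_real, Real.norm_eq_abs]
      unfold ltr
      rw [enb_sg]
      norm_num
    rw [h2, Finset.sum_const, Finset.card_range, nsmul_eq_mul, mul_one]
    push_cast
    rw [div_self (by positivity)])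
  have h3 : avZ (fun _ : ZMod N => (1 : ℝ)) = 1 := by
    unfold avZ
    rw [Finset.sum_const, Finset.card_univ, ZMod.card, nsmul_eq_mul, mul_one, div_self hNR.ne']
  rw [h3] at h
  exact h

/-- the harmonic sum over the blocks -/
theorem harm (X : Wn) (N : ℕ) (hN : 1 ≤ N) (hX : 1 ≤ X.L) :
    ∑ i ∈ Icc (X.lo / N + 1) (X.hi / N - 1), 1 / (i : ℝ) ≤ 2 * X.L := by
  rcases le_or_gt (X.lo / N + 1) (X.hi / N - 1) with h | h
  · have hp : 1 ≤ X.lo / N + 1 := Nat.succ_le_succ (Nat.zero_le _)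
    refine (sum_Icc_le _ _ hp h).trans ?_
    have hNR : (0 : ℝ) < N := by exact_mod_cast hN
    have h1 : (1 : ℝ) / ((X.lo / N + 1 : ℕ) : ℝ) ≤ 1 := by
      rw [div_le_one (by positivity)]
      exact_mod_cast hp
    have h2 : ((X.hi / N - 1 : ℕ) : ℝ) ≤ X.hi / N := by
      have h3 : X.hi / N - 1 ≤ X.hi / N := Nat.sub_le _ _
      calc ((X.hi / N - 1 : ℕ) : ℝ) ≤ ((X.hi / N : ℕ) : ℝ) := by exact_mod_cast h3
        _ ≤ X.hi / N := Nat.cast_div_le
    have h4 : (X.lo : ℝ) / N ≤ ((X.lo / N + 1 : ℕ) : ℝ) := by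
      rw [div_le_iff₀ hNR]
      have h5 := Nat.lt_div_mul_add hN (a := X.lo)
      have h6 : X.lo ≤ (X.lo / N + 1) * N := by
        rw [Nat.add_mul, one_mul]
        exact h5.le
      exact_mod_cast h6
    have h7 : Real.log ((X.hi / N - 1 : ℕ) : ℝ) ≤ Real.log (X.hi / N) :=
      Real.log_le_log (by exact_mod_cast hp.trans h) h2
    have h8 : Real.log ((X.lo : ℝ) / N) ≤ Real.log ((X.lo / N + 1 : ℕ) : ℝ) :=
      Real.log_le_log (div_pos X.lo_pos hNR) h4
    rw [Real.log_div X.hi_pos.ne' hNR.ne'] at h7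
    rw [Real.log_div X.lo_pos.ne' hNR.ne'] at h8
    have h9 : X.L = Real.log X.hi - Real.log X.lo := rfl
    linarith
  · rw [Finset.Icc_eq_empty (by omega), Finset.sum_empty]
    linarith

/-- shift by one -/
theorem shift (X : Wn) (f : ℕ → ℝ) (hf : ∀ n, 0 ≤ f n) :
    wlg X (fun n => if n ≤ X.lo then 0 else f (n - 1)) ≤ wlg X f := by
  unfold wlg
  have h0 := X.one_le
  have h1 : ∑ n ∈ Icc X.lo X.hi, (if n ≤ X.lo then 0 else f (n - 1)) / (n : ℝ) =
      ∑ n ∈ Icc (X.lo + 1) X.hi, f (n - 1) / (n : ℝ) := by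
    symm
    apply Finset.sum_subset_zero_on_sdiff
    · intro n hn
      rw [Finset.mem_Icc] at hn ⊢
      omega
    · intro n hn
      rw [Finset.mem_sdiff, Finset.mem_Icc, Finset.mem_Icc] at hn
      rw [if_pos (by omega), zero_div]
    · intro n hn
      rw [Finset.mem_Icc] at hn
      rw [if_neg (by omega)]
  rw [h1]
  have h2 : ∑ n ∈ Icc (X.lo + 1) X.hi, f (n - 1) / (n : ℝ) ≤
      ∑ n ∈ Icc (X.lo + 1) X.hi, f (n - 1) / ((n - 1 : ℕ) : ℝ) := by
    apply Finset.sum_le_sum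
    intro n hn
    rw [Finset.mem_Icc] at hn
    refine div_le_div_of_nonneg_left (hf _) ?_ ?_
    · exact_mod_cast (by omega : 0 < n - 1)
    · exact_mod_cast (by omega : n - 1 ≤ n)
  refine h2.trans ?_
  have h3 : ∑ n ∈ Icc (X.lo + 1) X.hi, f (n - 1) / ((n - 1 : ℕ) : ℝ) =
      ∑ m ∈ Icc X.lo (X.hi - 1), f m / (m : ℝ) := by
    refine Finset.sum_nbij' (fun n => n - 1) (fun m => m + 1) ?_ ?_ ?_ ?_ ?_
    · intro n hn
      rw [Finset.mem_Icc] at hn ⊢
      omega
    · intro m hm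
      rw [Finset.mem_Icc] at hm ⊢
      omega
    · intro n hn
      rw [Finset.mem_Icc] at hn
      omega
    · intro m hm
      omega
    · intro n _
      rfl
  rw [h3]
  apply Finset.sum_le_sum_of_subset_of_nonneg
  · intro m hm
    rw [Finset.mem_Icc] at hm ⊢
    omega
  · intro m _ _
    have := hf m
    positivity

theorem pf_ENB (hW : T_WNT) (hL : W_BLL) : W_ENB := by
  intro ε hε
  obtain ⟨δ, hδ0, hδ1, hδ⟩ := enb_delta ε hε
  refine ⟨δ * ε / 8, by positivity, fun R => ?_⟩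
  obtain ⟨s₀, hs₀⟩ := hW δ hδ0 hδ1 R
  refine ⟨s₀, fun s hs => ?_⟩
  set W₀ : ℝ := 4 * (ε / 8 + 1 / δ) / ε with hW₀
  refine ⟨max (max 3 ⌈8 * 2 ^ s / (δ * ε)⌉₊) ⌈Real.exp W₀⌉₊, ?_⟩
  intro X N _ lam hN hNX hlam hbase
  have hNa : 3 ≤ N := ((le_max_left _ _).trans (le_max_left _ _)).trans hN
  have hN0 : 0 < N := by omega
  have hNR : (0 : ℝ) < N := by exact_mod_cast hN0
  have hN3 : 8 * 2 ^ s / (δ * ε) ≤ (N : ℝ) :=
    (Nat.le_ceil _).trans (by
      exact_mod_cast ((le_max_right _ _).trans (le_max_left _ _)).trans hN)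
  have hN4 : Real.exp W₀ ≤ (N : ℝ) :=
    (Nat.le_ceil _).trans (by exact_mod_cast (le_max_right _ _).trans hN)
  have hX1 : 1 ≤ X.L := by
    refine le_trans ?_ hNX
    rw [Real.le_log_iff_exp_le hNR]
    have : (3 : ℝ) ≤ N := by exact_mod_cast hNa
    exact (Real.exp_one_lt_d9.le.trans (by norm_num)).trans this
  have hXW : W₀ ≤ X.L := by
    refine le_trans ?_ hNX
    rw [Real.le_log_iff_exp_le hNR]
    exact hN4
  obtain ⟨b, β, hb, hlg⟩ := hbase
  have hlg' : wlg X (enb_er lam R (2 ^ s) b β) ≤ δ * ε / 8 * X.L := hlg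
  set er : ℕ → ℝ := enb_er lam R (2 ^ s) b β with her
  have her0 : ∀ n, 0 ≤ er n := fun n => enb_er_nonneg lam R (2 ^ s) b β n
  set D : ℝ := 4 * δ * Real.log (1 / δ) with hD
  have hD0 : 0 ≤ D := by
    have h1 : 0 ≤ Real.log (1 / δ) := Real.log_nonneg (by
      rw [le_div_iff₀ hδ0]; linarith)
    positivity
  set G : ℕ → ℝ := fun i => 1 / (i : ℝ) *
    (ent (unif N) (fun n => wd (blk lam N i) (2 ^ s) n) / 2 ^ s) with hG
  have hG1 : ∀ i, 1 ≤ i → G i ≤ ε / 4 * X.L := by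
    intro i hi
    have h1 := first_block δ D R s N (blk lam N i)
      (fun x b β E hb hE => hs₀ s N x b β E hs hb hE)
    have hi0 : (1 : ℝ) ≤ i := by exact_mod_cast hi
    have h2 : G i ≤ 1 / (i : ℝ) * (D + 1 / δ) :=
      mul_le_mul_of_nonneg_left h1 (by positivity)
    have h3 : 1 / (i : ℝ) * (D + 1 / δ) ≤ 1 * (D + 1 / δ) := by
      refine mul_le_mul_of_nonneg_right ?_ (by positivity)
      rw [div_le_one (by linarith)]
      exact hi0
    have h4 : ε / 4 * W₀ = ε / 8 + 1 / δ := by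
      rw [hW₀]
      field_simp
    have h5 : ε / 4 * W₀ ≤ ε / 4 * X.L := mul_le_mul_of_nonneg_left hXW (by positivity)
    linarith
  have hsplit : ∑ i ∈ Icc (max 1 (X.lo / N)) (X.hi / N - 1), G i ≤
      ε / 4 * X.L + ∑ i ∈ Icc (X.lo / N + 1) (X.hi / N - 1), G i := by
    have hε4 : 0 ≤ ε / 4 * X.L := by
      have := X.L_nonneg
      positivity
    rcases Nat.eq_zero_or_pos (X.lo / N) with h | h
    · rw [h]
      have h1 : max 1 0 = 0 + 1 := rfl
      rw [h1]
      linarith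
    · rw [max_eq_right h]
      rcases le_or_gt (X.lo / N) (X.hi / N - 1) with h2 | h2
      · have h3 : Icc (X.lo / N) (X.hi / N - 1) =
            insert (X.lo / N) (Icc (X.lo / N + 1) (X.hi / N - 1)) := by
          ext i
          rw [Finset.mem_insert, Finset.mem_Icc, Finset.mem_Icc]
          omega
        rw [h3, Finset.sum_insert (by rw [Finset.mem_Icc]; omega)]
        have := hG1 (X.lo / N) h
        linarith
      · rw [Finset.Icc_eq_empty (by omega), Finset.Icc_eq_empty (by omega)]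
        simpa using hε4
  refine hsplit.trans ?_
  -- one block
  have hblock : ∀ i ∈ Icc (X.lo / N + 1) (X.hi / N - 1), G i ≤
      (D + 2 ^ s / N / δ) * (1 / (i : ℝ)) +
        1 / δ * (1 / (i : ℝ) * ((∑ k ∈ range N, er (i * N + k - 1)) / N)) := by
    intro i hi
    have hi1 : 1 ≤ i :=
      (Nat.succ_le_succ (Nat.zero_le _)).trans (Finset.mem_Icc.mp hi).1
    have h1 := enb_block δ D hδ0 R s N i
      (fun x b β E hb hE => hs₀ s N x b β E hs hb hE) lam hi1 hlam b β hb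
    have h2 := mul_le_mul_of_nonneg_left h1 (by positivity : (0 : ℝ) ≤ 1 / (i : ℝ))
    refine h2.trans (le_of_eq ?_)
    rw [her]
    field_simp
    ring
  have hsum := Finset.sum_le_sum hblock
  rw [Finset.sum_add_distrib, ← Finset.mul_sum, ← Finset.mul_sum] at hsum
  -- the harmonic sum
  have hH := harm X N hN0 hX1
  have hH0 : 0 ≤ ∑ i ∈ Icc (X.lo / N + 1) (X.hi / N - 1), 1 / (i : ℝ) :=
    Finset.sum_nonneg fun i _ => by positivity
  have hc : D + 2 ^ s / N / δ ≤ ε / 8 + ε / 8 := by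
    refine add_le_add hδ ?_
    rw [div_div, div_le_iff₀ (by positivity)]
    rw [div_le_iff₀ (by positivity)] at hN3
    nlinarith
  -- the errors
  have hA : ∑ i ∈ Icc (X.lo / N + 1) (X.hi / N - 1),
      1 / (i : ℝ) * ((∑ k ∈ range N, er (i * N + k - 1)) / N) ≤ 2 * (δ * ε / 8 * X.L) := by
    have h1 := hL X N (fun n => if n ≤ X.lo then 0 else er (n - 1)) (by omega) (fun n => by
      split_ifs
      · exact le_rfl
      · exact her0 _)
    have h2 := shift X er her0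
    have h3 : ∑ i ∈ Icc (X.lo / N + 1) (X.hi / N - 1),
        1 / (i : ℝ) * ((∑ k ∈ range N, er (i * N + k - 1)) / N) =
        ∑ i ∈ Icc (X.lo / N + 1) (X.hi / N - 1), 1 / (i : ℝ) * ((∑ k ∈ range N,
          (fun n => if n ≤ X.lo then 0 else er (n - 1)) (i * N + k)) / N) := by
      apply Finset.sum_congr rfl
      intro i hi
      have hi1 := (Finset.mem_Icc.mp hi).1
      congr 2
      apply Finset.sum_congr rfl
      intro k _
      have h4 : X.lo < i * N := by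
        have h5 := Nat.lt_div_mul_add hN0 (a := X.lo)
        have h6 : (X.lo / N + 1) * N ≤ i * N := Nat.mul_le_mul_right N hi1
        rw [Nat.add_mul, one_mul] at h6
        omega
      simp only
      rw [if_neg (by omega)]
    rw [h3]
    linarith
  have h5 : (D + 2 ^ s / N / δ) * ∑ i ∈ Icc (X.lo / N + 1) (X.hi / N - 1), 1 / (i : ℝ) ≤
      (ε / 8 + ε / 8) * (2 * X.L) :=
    mul_le_mul hc hH hH0 (by positivity)
  have h6 : 1 / δ * ∑ i ∈ Icc (X.lo / N + 1) (X.hi / N - 1),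
      1 / (i : ℝ) * ((∑ k ∈ range N, er (i * N + k - 1)) / N) ≤
      1 / δ * (2 * (δ * ε / 8 * X.L)) :=
    mul_le_mul_of_nonneg_left hA (by positivity)
  have h7 : 1 / δ * (2 * (δ * ε / 8 * X.L)) = ε / 4 * X.L := by
    field_simp
    ring
  have h8 : 0 ≤ ε * X.L := mul_nonneg hε.le X.L_nonneg
  linarith

end Pool.Agent.H12.NW.ENB
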